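import Pool.Agent.H14.QF.Mn
import Pool.Graph.R_pool_sql_team_seeded_9f66d723.Results.MP_e6539c_co.CircumferenceFifteen

/-!
# Covering graphs without a Petersen minor by two cycles: long circuits (MP_e6539c_co)

Every finite multigraph without isthmuses and without a Petersen graph minor, in which no circuit has
more than fifteen edges which are not local, is the union of two cycles.  Here the local edges are
the least set of edges which contains all edges of the circuits with at most four edges, and of the
circuits which have at most four edges after local edges have been contracted.  There is no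
condition on the number of vertices, on the degrees or on the connectivity, and the circumference is
not bounded.

Proof.  `H14.QF.Mn.principle` says that, for each `m` with `m ≥ 2`, the conjecture for all graphs
without circuits with more than `m` edges implies the conjecture for all graphs in which no circuit
has more than `m` edges which are not local.  Let `G` be a graph of the second kind which is not the
union of two cycles.  A minimal contraction `H` (contraction of connected sets) of `G` which has no
nowhere-zero 4-flow and no Petersen quotient has no circuits with two, three or four edges, so all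
local edges of `G` are loops of `H`.  A circuit of `H` can be lifted to a circuit of `G` which has
all the edges of the circuit of `H`; so `H` has no circuits with more than `m` edges, and it has no
Petersen minor, a contradiction.  The library has the conjecture for `m = 15`
(`CircumferenceFifteen`).
-/

set_option autoImplicit false

namespace Pool.Agent.Results.MP_e6539c_co.LongCircuits

open Pool.Agent.TH362.Multi

variable {V E : Type}

/-- The graph has a Petersen graph minor: there are ten disjoint connected vertex sets, one for each
of the ten pairs of elements of `Fin 5`, such that some edge joins the sets of disjoint pairs. -/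
def HasPetersenMinor (s t : E → V) : Prop :=
  ∃ B : {p : Finset (Fin 5) // p.card = 2} → Set V,
    (∀ i, ConnectedSet s t (B i)) ∧ (∀ i j, i ≠ j → Disjoint (B i) (B j)) ∧
    ∀ i j, Disjoint i.1 j.1 → ∃ e, (s e ∈ B i ∧ t e ∈ B j) ∨ (s e ∈ B j ∧ t e ∈ B i)

/-- The edge `e` is local: it is in every edge set `S` such that each cycle with at most four edges
outside of `S` is contained in `S`. -/
def IsLocal (s t : E → V) (e : E) : Prop :=
  ∀ S : Set E, (∀ C, IsCycle s t C → (C \ S).ncard ≤ 4 → C ⊆ S) → e ∈ S

/-- Some circuit has more than fifteen edges which are not local: there are `n` different vertices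
`v 0, ..., v (n - 1)` such that the edge `e i` joins `v i` and `v (i + 1)` for each `i`, where the
indices are read modulo `n`, and more than fifteen of the edges `e 0, ..., e (n - 1)` are not
local. -/
def HasLongCircuit (s t : E → V) : Prop :=
  ∃ (n : ℕ) (v : ℕ → V) (e : ℕ → E), (∀ i < n, ∀ j < n, v i = v j → i = j) ∧
    (∀ i < n, (s (e i) = v i ∧ t (e i) = v ((i + 1) % n)) ∨
      (s (e i) = v ((i + 1) % n) ∧ t (e i) = v i)) ∧
    15 < {i | i < n ∧ ¬ IsLocal s t (e i)}.ncard

theorem base {V E : Type} [Fintype V] [DecidableEq V] [Fintype E] [DecidableEq E] (s t : E → V)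
    (h : ∀ e, ¬ Isthmus s t e) (hp : ¬ H14.QF.Mn.HasPetersenMinor s t)
    (hc : ¬ H14.QF.Mn.MoreThan s t 15 (fun _ => True)) : H14.QF.Mn.TwoCycles s t := by
  classical
  have key : ∃ C₁ C₂ : Finset E, CircumferenceFifteen.IsCycle s t C₁ ∧
      CircumferenceFifteen.IsCycle s t C₂ ∧ C₁ ∪ C₂ = Finset.univ := by
    refine CircumferenceFifteen.result V E s t ?_ ?_ ?_
    · intro k p hk
      by_contra hlt
      obtain ⟨h1, h2⟩ := hk
      choose f hf using h2
      have hk0 : NeZero k := ⟨by omega⟩
      refine hc ⟨k, fun i => p (i : ZMod k), fun i => f (i : ZMod k), ?_, ?_, ?_⟩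
      · intro i hi j hj hij
        have h4 := h1 hij
        rw [ZMod.natCast_eq_natCast_iff'] at h4
        rwa [Nat.mod_eq_of_lt hi, Nat.mod_eq_of_lt hj] at h4
      · intro i hi
        have h4 := hf (i : ZMod k)
        have h5 : (((i + 1) % k : ℕ) : ZMod k) = (i : ZMod k) + 1 := by
          rw [ZMod.natCast_mod]
          push_cast
          rfl
        show (s (f (i : ZMod k)) = p (i : ZMod k) ∧
            t (f (i : ZMod k)) = p (((i + 1) % k : ℕ) : ZMod k)) ∨
          (s (f (i : ZMod k)) = p (((i + 1) % k : ℕ) : ZMod k) ∧
            t (f (i : ZMod k)) = p (i : ZMod k))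
        rw [h5]
        exact h4
      · have h3 : {i | i < k ∧ True} = ((Finset.range k : Finset ℕ) : Set ℕ) := by
          ext i; simp
        rw [h3, Set.ncard_coe_finset, Finset.card_range]
        omega
    · intro e he
      refine h e fun h4 => he ?_
      refine Relation.ReflTransGen.mono ?_ _ _ h4
      rintro x y ⟨e', h5, h6⟩
      exact ⟨e', h5, h6⟩
    · rintro ⟨B, h1, h2, h3, h4⟩
      refine hp ⟨B, fun i => ⟨h1 i, fun u hu v hv => ?_⟩, h2, h4⟩
      refine Relation.ReflTransGen.mono ?_ _ _ (h3 i u hu v hv)
      rintro x y ⟨hx, hy, e, he | he⟩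
      · exact ⟨e, ⟨he.1 ▸ hx, he.2 ▸ hy⟩, Or.inl he⟩
      · exact ⟨e, ⟨he.1 ▸ hy, he.2 ▸ hx⟩, Or.inr he⟩
  obtain ⟨C₁, C₂, h1, h2, h3⟩ := key
  refine ⟨C₁, C₂, fun v => ?_, fun v => ?_, ?_⟩
  · have h4 := h1 v
    rw [← Set.ncard_coe_finset, ← Set.ncard_coe_finset] at h4
    unfold degree
    simpa using h4
  · have h4 := h2 v
    rw [← Set.ncard_coe_finset, ← Set.ncard_coe_finset] at h4
    unfold degree
    simpa using h4
  · rw [← Finset.coe_union, h3, Finset.coe_univ]

/-- Every finite multigraph without isthmuses and without a Petersen minor, in which no circuit has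
more than fifteen edges which are not local, is the union of two cycles. -/
theorem result (V E : Type) [Fintype V] [Fintype E] (s t : E → V) (h : ∀ e, ¬ Isthmus s t e)
    (hp : ¬ HasPetersenMinor s t) (hc : ¬ HasLongCircuit s t) :
    ∃ C₁ C₂ : Set E, IsCycle s t C₁ ∧ IsCycle s t C₂ ∧ C₁ ∪ C₂ = Set.univ := by
  classical
  exact H14.QF.Mn.principle (m := 15) (by norm_num) (Pool.Agent.TH362.TF.n1_of s t h) hp hc
    fun s' t' h1 h2 h3 => base s' t' h1 h2 h3

end Pool.Agent.Results.MP_e6539c_co.LongCircuits
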