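import Pool.Agent.H14.QF.Three

/-!
# Two cycles, or the Petersen graph: nine disjoint edges which are not local (MP_e6539c_co)

Every finite multigraph without isthmuses which has no nine pairwise disjoint edges that are not local
is the union of two cycles, or a component of it can be contracted to the Petersen graph; in
particular it is the union of two cycles if it has no Petersen minor.  Here the local edges are the
least set of edges which contains all edges of the circuits with at most four edges, and of the
circuits which have at most four edges after local edges have been contracted.  So the matching number
is not bounded, nor the number of disjoint edges that are on no circuit with at most four edges (the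
library has the case of these edges, `NineDisjointEdges`): for instance every vertex of a graph with
matching number at most eight may be replaced by a graph which is built from one vertex by repeatedly
adding paths with at most four edges (both ends in the graph constructed before).

Proof.  Let `G` be such a graph which is not the union of two cycles, and suppose that no component
can be contracted to the Petersen graph.  A minimal contraction `H` (identification of vertices of
connected sets) of `G` which has no nowhere-zero 4-flow and no Petersen quotient has no circuits with
two, three or four edges, so all local edges of `G` are loops of `H` (`H14/QF`).  By the library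
theorem (`W5h8/M9`) `H` has nine disjoint edges which are not loops; they are disjoint edges of `G`
and not local, a contradiction.
-/

set_option autoImplicit false

namespace Pool.Agent.Results.MP_e6539c_co.NonLocalMatching

open Pool.Agent.TH362.Multi

/-- The edge `e` is local: it is in every edge set `S` such that each cycle with at most four edges
outside of `S` is contained in `S`. -/
def IsLocal {V E : Type} (s t : E → V) (e : E) : Prop :=
  ∀ S : Set E, (∀ C, IsCycle s t C → (C \ S).ncard ≤ 4 → C ⊆ S) → e ∈ S

/-- There are nine pairwise disjoint edges (no two of them have a common end) which are not local. -/
def HasNineDisjointEdges {V E : Type} (s t : E → V) : Prop :=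
  ∃ f : Fin 9 → E, (∀ i, ¬ IsLocal s t (f i)) ∧
    ∀ i j, i ≠ j → Disjoint ({s (f i), t (f i)} : Set V) {s (f j), t (f j)}

/-- Every finite multigraph without isthmuses and without nine pairwise disjoint edges which are not
local is the union of two cycles, or a component of it can be contracted to the Petersen graph. -/
theorem result (V E : Type) [Finite V] [Finite E] (s t : E → V) (h : ∀ e, ¬ Isthmus s t e)
    (h9 : ¬ HasNineDisjointEdges s t) :
    (∃ C₁ C₂ : Set E, IsCycle s t C₁ ∧ IsCycle s t C₂ ∧ C₁ ∪ C₂ = Set.univ) ∨
      ContractsToPetersen s t := by
  classical
  have := Fintype.ofFinite V
  have := Fintype.ofFinite E
  have hn := Pool.Agent.TH362.TF.n1_of s t h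
  have h2 : ¬ Pool.Agent.H14.QF.Tm.NineNL s t := by
    rintro ⟨f, h1, h2⟩
    exact h9 ⟨f, fun i h3 => h1 i fun S hS => H14.QF.Mn.local_of h3 hS, h2⟩
  rcases Pool.Agent.H14.QF.Tm.dich (s := s) (t := t) (Or.inr (Or.inl h2)) id
    (fun x y hxy => by rw [show x = y from hxy]) hn with h1 | h1
  · exact Or.inl (Pool.Agent.TH362.TF.two_cycles s t h1)
  · exact Or.inr (Pool.Agent.TH362.TF.contracts s t hn h1)

end Pool.Agent.Results.MP_e6539c_co.NonLocalMatching
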