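import Pool.Agent.H14.QF.Three

/-!
# Two cycles, or the Petersen graph: thirteen disjoint 3-edge-cuts without local edges (MP_e6539c_co)

Let `G` be a finite multigraph without isthmuses in which there are no thirteen pairwise disjoint
vertex sets with pairwise different boundaries, each of which consists of exactly three edges, none of
them local.  Then `G` is the union of two cycles, or a component of `G` can be contracted to the
Petersen graph; in particular `G` is the union of two cycles if it has no Petersen minor.  Here the
local edges are the least set of edges which contains all edges of the circuits with at most four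
edges, and of the circuits which have at most four edges after local edges have been contracted.  So
only the 3-edge-cuts without local edges count (in the library, `TwelveThreeCuts`, all 3-edge-cuts
count); a vertex of degree three which is on a circuit with at most four edges does not count, and
cubic graphs of any order may satisfy the condition.

Proof.  Let `G` be such a graph which is not the union of two cycles, and suppose that no component
can be contracted to the Petersen graph.  A minimal contraction `H` (identification of vertices of
connected sets) of `G` which has no nowhere-zero 4-flow and no Petersen quotient has no circuits with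
two, three or four edges, so all local edges of `G` are loops of `H` (`H14/QF`).  By the library
theorem (`TH362/FO`) `H` has thirteen disjoint vertex sets with different boundaries of size three.
Their inverse images are such sets of `G`, and the boundaries have no local edges, a contradiction.
-/

set_option autoImplicit false

namespace Pool.Agent.Results.MP_e6539c_co.NonLocalThreeCuts

open Finset Pool.Agent.TH362.Multi

/-- The edges with exactly one end in `Z`. -/
def leaving {V E : Type} (s t : E → V) (Z : Set V) : Set E :=
  {e | ¬ (s e ∈ Z ↔ t e ∈ Z)}

/-- The edge `e` is local: it is in every edge set `S` such that each cycle with at most four edges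
outside of `S` is contained in `S`. -/
def IsLocal {V E : Type} (s t : E → V) (e : E) : Prop :=
  ∀ S : Set E, (∀ C, IsCycle s t C → (C \ S).ncard ≤ 4 → C ⊆ S) → e ∈ S

/-- There are thirteen pairwise disjoint vertex sets with pairwise different boundaries, each of
which consists of exactly three edges, none of them local. -/
def HasThirteenCuts {V E : Type} (s t : E → V) : Prop :=
  ∃ X : Fin 13 → Set V, (∀ i j, i ≠ j → Disjoint (X i) (X j)) ∧
    (∀ i j, i ≠ j → leaving s t (X i) ≠ leaving s t (X j)) ∧
    ∀ i, (leaving s t (X i)).ncard = 3 ∧ ∀ e ∈ leaving s t (X i), ¬ IsLocal s t e

/-- Every finite multigraph without isthmuses and without thirteen pairwise disjoint vertex sets with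
pairwise different boundaries of exactly three edges, none of them local, is the union of two cycles,
or a component of it can be contracted to the Petersen graph. -/
theorem result (V E : Type) [Finite V] [Finite E] (s t : E → V) (h : ∀ e, ¬ Isthmus s t e)
    (h13 : ¬ HasThirteenCuts s t) :
    (∃ C₁ C₂ : Set E, IsCycle s t C₁ ∧ IsCycle s t C₂ ∧ C₁ ∪ C₂ = Set.univ) ∨
      ContractsToPetersen s t := by
  classical
  have := Fintype.ofFinite V
  have := Fintype.ofFinite E
  have hn := Pool.Agent.TH362.TF.n1_of s t h
  have h2 : ¬ Pool.Agent.H14.QF.Tm.FamNL s t := by
    rintro ⟨X, h1, h2, h3⟩
    have hc : ∀ i, leaving s t {v | X i v = true} =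
        ((Pool.Agent.TH362.TF.cut s t univ (X i) : Finset E) : Set E) := by
      intro i
      ext e
      simp only [leaving, Set.mem_ofPred_eq, Pool.Agent.TH362.TF.cut, coe_filter, mem_univ, true_and]
      cases X i (s e) <;> cases X i (t e) <;> simp
    refine h13 ⟨fun i => {v | X i v = true}, fun i j hij => ?_, fun i j hij => ?_,
      fun i => ⟨?_, ?_⟩⟩
    · rw [Set.disjoint_left]
      intro v hv hv'
      exact h1 i j hij v ⟨hv, hv'⟩
    · rw [hc, hc]
      exact fun h4 => h2 i j hij (Finset.coe_injective h4)
    · rw [hc, Set.ncard_coe_finset]
      exact (h3 i).1
    · intro e he h4
      rw [hc, Finset.mem_coe] at he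
      exact (h3 i).2 e he fun S hS => H14.QF.Mn.local_of h4 hS
  rcases Pool.Agent.H14.QF.Tm.dich (s := s) (t := t) (Or.inr (Or.inr h2)) id
    (fun x y hxy => by rw [show x = y from hxy]) hn with h1 | h1
  · exact Or.inl (Pool.Agent.TH362.TF.two_cycles s t h1)
  · exact Or.inr (Pool.Agent.TH362.TF.contracts s t hn h1)

end Pool.Agent.Results.MP_e6539c_co.NonLocalThreeCuts
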